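import Pool.Agent.Lib.MP_900844_co.Defs
import Pool.Agent.Lib.MP_900844_co.Game

/-! The winning components of a strict position of type N form a block of consecutive indices. -/

open Pool.Agent.Lib.MP_900844_co

theorem Pool.Agent.Results.MP_900844_co.Interval.result :
    ∀ (n : ℕ) (a : Fin (n + 1) → ℕ), Monotone a → Strict a → IsN (n + 1) a →
      ∃ i j : Fin (n + 1), i ≤ j ∧ ∀ k : Fin (n + 1), Winning a k ↔ (i ≤ k ∧ k ≤ j) := by
  intro n a hm hs hN
  classical
  have hne : (Finset.univ.filter fun k => Winning a k).Nonempty := by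
    obtain ⟨k, hk⟩ := hN
    exact ⟨k, Finset.mem_filter.2 ⟨Finset.mem_univ _, hk⟩⟩
  have hi := (Finset.mem_filter.1 (Finset.min'_mem _ hne)).2
  have hj := (Finset.mem_filter.1 (Finset.max'_mem _ hne)).2
  refine ⟨_, _, Finset.min'_le_max' _ hne, fun k => ⟨fun hk => ?_, fun hk => ?_⟩⟩
  · have hk' : k ∈ Finset.univ.filter fun k => Winning a k :=
      Finset.mem_filter.2 ⟨Finset.mem_univ _, hk⟩
    exact ⟨Finset.min'_le _ _ hk', Finset.le_max' _ _ hk'⟩
  · exact winning_convex hs.good (hm hk.1) (hm hk.2) hi hj
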